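import Pool.Agent.UIM.Size
import Pool.Agent.SM53.Windows

/-!
The cofactor of `m` in `lcm (1, …, b)` is at most `exp (29 b ^ (2/3))`, and `log m = b + O(b / log b)`.
-/

set_option autoImplicit false

open Finset

namespace Pool.Agent.UIM

open Pool.Agent.P30.UnitInterval

lemma log_four_le : Real.log 4 ≤ 1.3864 := by
  rw [show (4 : ℝ) = 2 ^ 2 by norm_num, Real.log_pow]
  have := Real.log_two_lt_d9
  push_cast
  linarith

lemma exists_T (b : ℕ) (hb : 149 ≤ b) : ∃ T : ℕ, 2 ≤ T ∧ (T : ℝ) ≤ (b : ℝ) ^ (1 / 3 : ℝ) ∧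
    (b : ℝ) ^ (1 / 3 : ℝ) < T + 1 ∧ T ^ 3 ≤ b := by
  have hb0 : (0 : ℝ) ≤ b := Nat.cast_nonneg b
  have hx0 : 0 ≤ (b : ℝ) ^ (1 / 3 : ℝ) := Real.rpow_nonneg hb0 _
  have h1 : ((⌊(b : ℝ) ^ (1 / 3 : ℝ)⌋₊ : ℕ) : ℝ) ≤ (b : ℝ) ^ (1 / 3 : ℝ) := Nat.floor_le hx0
  have h3 : ((b : ℝ) ^ (1 / 3 : ℝ)) ^ 3 = b := by
    rw [← Real.rpow_natCast, ← Real.rpow_mul hb0]
    norm_num
  refine ⟨⌊(b : ℝ) ^ (1 / 3 : ℝ)⌋₊, ?_, h1, Nat.lt_floor_add_one _, ?_⟩
  · apply Nat.le_floor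
    have hbR : (149 : ℝ) ≤ b := by exact_mod_cast hb
    push_cast
    by_contra hcon
    push Not at hcon
    have h4 : ((b : ℝ) ^ (1 / 3 : ℝ)) ^ 3 < 2 ^ 3 := pow_lt_pow_left₀ hcon hx0 (by norm_num)
    rw [h3] at h4
    linarith
  · have h4 : (((⌊(b : ℝ) ^ (1 / 3 : ℝ)⌋₊ : ℕ) : ℝ)) ^ 3 ≤ (b : ℝ) := by
      calc _ ≤ ((b : ℝ) ^ (1 / 3 : ℝ)) ^ 3 := pow_le_pow_left₀ (Nat.cast_nonneg _) h1 3
        _ = b := h3
    exact_mod_cast h4

/-- the cofactor is small -/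
theorem cofactor {a b m s : ℕ} (h : Sol a b m s) :
    ∃ D : ℕ, m * D = Nat.lcmUpto b ∧ Real.log D ≤ 29 * (b : ℝ) ^ (2 / 3 : ℝ) := by
  obtain ⟨D, hD⟩ := m_dvd h
  refine ⟨D, hD.symm, ?_⟩
  have hb1 : 1 ≤ b := by have := h.hab; omega
  have hb0 : (0 : ℝ) < b := by exact_mod_cast hb1
  have hbR1 : (1 : ℝ) ≤ b := by exact_mod_cast hb1
  have hl4 := log_four_le
  have hm0 : m ≠ 0 := by have := h.hm; omega
  have hD0 : D ≠ 0 := by
    intro h0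
    rw [h0, Nat.mul_zero] at hD
    exact Nat.lcmUpto_ne_zero b hD
  have h13 : (b : ℝ) = (b : ℝ) ^ (2 / 3 : ℝ) * (b : ℝ) ^ (1 / 3 : ℝ) := by
    rw [← Real.rpow_add hb0]
    norm_num
  have h23 : 0 ≤ (b : ℝ) ^ (2 / 3 : ℝ) := Real.rpow_nonneg hb0.le _
  rcases Nat.lt_or_ge b 149 with hb | hb
  · -- small `b`
    have h1 : Real.log D ≤ Chebyshev.psi b := by
      rw [Chebyshev.psi_eq_log_lcmUpto]
      apply Real.log_le_log
      · exact_mod_cast Nat.pos_of_ne_zero hD0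
      · have : D ≤ Nat.lcmUpto b := by
          rw [hD]
          exact Nat.le_mul_of_pos_left D h.hm
        exact_mod_cast this
    have h2 := Chebyshev.psi_le_const_mul_self (x := (b : ℝ)) hb0.le
    have h3 : (b : ℝ) ^ (1 / 3 : ℝ) ≤ 5.302 := by
      by_contra hcon
      push Not at hcon
      have h4 : (5.302 : ℝ) ^ 3 < ((b : ℝ) ^ (1 / 3 : ℝ)) ^ 3 :=
        pow_lt_pow_left₀ hcon (by norm_num) (by norm_num)
      rw [← Real.rpow_natCast ((b : ℝ) ^ (1 / 3 : ℝ)), ← Real.rpow_mul hb0.le] at h4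
      norm_num at h4
      have h5 : (b : ℝ) ≤ 148 := by exact_mod_cast (by omega : b ≤ 148)
      linarith
    have h4 : (Real.log 4 + 4) * (b : ℝ) ≤ 5.3864 * (b : ℝ) := by
      apply mul_le_mul_of_nonneg_right _ hb0.le
      linarith
    have h5 : (5.3864 : ℝ) * (b : ℝ) ≤ 29 * (b : ℝ) ^ (2 / 3 : ℝ) := by
      nlinarith [mul_le_mul_of_nonneg_left h3 h23]
    linarith
  · obtain ⟨T, hT2, hTle, hTlt, hT3⟩ := exists_T b hb
    have h1 := log_cofactor (T := T) hb1 hD.symm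
    have h13' := thirteen h hb
    have hTb : ∀ p ∈ Exc b m T, p.Prime ∧ b / p ≤ T ∧ (a + 1 + p - 1) / p ≤ b / p ∧
        p ∣ SM53.Nw T ((a + 1 + p - 1) / p) (b / p) := by
      intro p hp
      unfold Exc at hp
      rw [Finset.mem_filter, Nat.mem_primesLE] at hp
      obtain ⟨⟨hpb, hpp⟩, hlt, hndvd⟩ := hp
      have hp0 : 0 < p := hpp.pos
      have hbp : b / p ≤ T := by
        have : b / p < T + 1 := (Nat.div_lt_iff_lt_mul hp0).mpr hlt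
        omega
      have hTp : T < p := by
        by_contra hcon
        push Not at hcon
        have e1 : (T + 1) * p ≤ (T + 1) * T := Nat.mul_le_mul_left _ hcon
        have e2 : (T + 1) * T ≤ T ^ 3 := by nlinarith
        omega
      have hu : (a + 1 + p - 1) / p = a / p + 1 := by
        rw [show a + 1 + p - 1 = a + p by omega, Nat.add_div_right a hp0]
      have hw := win h13' hp0 hpb
      refine ⟨hpp, hbp, ?_, ?_⟩
      · rw [hu]
        exact hw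
      · rw [hu]
        by_contra hN
        exact hndvd (prime_dvd_gen h hb hpp hpb hTp hbp hN)
    have h2 := SM53.exc_log_const (a + 1) b T (by omega) (Exc b m T) hTb
    have h3 : Chebyshev.theta ((b / (T + 1) : ℕ) : ℝ) ≤ 1.3864 * (b : ℝ) ^ (2 / 3 : ℝ) := by
      have e1 : (((b / (T + 1) : ℕ)) : ℝ) ≤ (b : ℝ) ^ (2 / 3 : ℝ) := by
        have e2 : (((b / (T + 1) : ℕ)) : ℝ) ≤ (b : ℝ) / ((T + 1 : ℕ) : ℝ) := Nat.cast_div_le
        refine le_trans e2 ?_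
        push_cast
        rw [div_le_iff₀ (by positivity)]
        calc (b : ℝ) = (b : ℝ) ^ (2 / 3 : ℝ) * (b : ℝ) ^ (1 / 3 : ℝ) := h13
          _ ≤ (b : ℝ) ^ (2 / 3 : ℝ) * (T + 1) := mul_le_mul_of_nonneg_left hTlt.le h23
      have e3 := Chebyshev.theta_le_log4_mul_x (x := ((b / (T + 1) : ℕ) : ℝ)) (Nat.cast_nonneg _)
      have e4 : Real.log 4 * ((b / (T + 1) : ℕ) : ℝ) ≤ 1.3864 * (b : ℝ) ^ (2 / 3 : ℝ) :=
        mul_le_mul hl4 e1 (Nat.cast_nonneg _) (by norm_num)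
      linarith
    have h4 : (T : ℝ) ^ 2 ≤ (b : ℝ) ^ (2 / 3 : ℝ) := by
      calc (T : ℝ) ^ 2 ≤ ((b : ℝ) ^ (1 / 3 : ℝ)) ^ 2 := pow_le_pow_left₀ (Nat.cast_nonneg _) hTle 2
        _ = (b : ℝ) ^ (2 / 3 : ℝ) := by
          rw [← Real.rpow_natCast, ← Real.rpow_mul hb0.le]
          norm_num
    have h5 : √(b : ℝ) * Real.log b ≤ 6 * (b : ℝ) ^ (2 / 3 : ℝ) := by
      have e1 := Real.log_le_rpow_div hb0.le (by norm_num : (0 : ℝ) < 1 / 6)
      have e2 : √(b : ℝ) * ((b : ℝ) ^ (1 / 6 : ℝ) / (1 / 6)) = 6 * (b : ℝ) ^ (2 / 3 : ℝ) := by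
        have e3 : (b : ℝ) ^ (2 / 3 : ℝ) = (b : ℝ) ^ (1 / 2 : ℝ) * (b : ℝ) ^ (1 / 6 : ℝ) := by
          rw [← Real.rpow_add hb0]
          norm_num
        rw [Real.sqrt_eq_rpow, e3]
        ring
      calc _ ≤ √(b : ℝ) * ((b : ℝ) ^ (1 / 6 : ℝ) / (1 / 6)) :=
            mul_le_mul_of_nonneg_left e1 (Real.sqrt_nonneg _)
        _ = _ := e2
    have h6 : 2 * (Real.log 4 + 5) * (T : ℝ) ^ 2 ≤ 12.7728 * (b : ℝ) ^ (2 / 3 : ℝ) :=
      mul_le_mul (by linarith) h4 (by positivity) (by norm_num)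
    linarith

lemma psi_pnt' : ∃ C : ℝ, 0 < C ∧ ∀ b : ℕ, 2 ≤ b → |Chebyshev.psi b - b| ≤ C * (b / Real.log b) := by
  obtain ⟨C, hC, h⟩ := Pool.Agent.ANT.psi_pnt 1
  refine ⟨C + 13, by linarith, ?_⟩
  intro b hb
  have hbR : (2 : ℝ) ≤ b := by exact_mod_cast hb
  have hlog : 0 < Real.log b := Real.log_pos (by linarith)
  have hpos : 0 ≤ (b : ℝ) / Real.log b := by positivity
  have hl4 := log_four_le
  rcases Nat.lt_or_ge b 3 with h3 | h3
  · have h1 := Chebyshev.psi_le_const_mul_self (x := (b : ℝ)) (by linarith)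
    have h2 := Chebyshev.psi_nonneg (b : ℝ)
    have hb2 : b = 2 := by omega
    have h4 : |Chebyshev.psi b - b| ≤ 13 := by
      rw [abs_le]
      have : (b : ℝ) = 2 := by rw [hb2]; norm_num
      rw [this] at h1 h2 ⊢
      constructor <;> linarith
    have h5 : 1 ≤ (b : ℝ) / Real.log b := by
      rw [le_div_iff₀ hlog]
      have := Real.log_le_sub_one_of_pos (by linarith : (0 : ℝ) < b)
      linarith
    nlinarith
  · have hb3 : (3 : ℝ) ≤ b := by exact_mod_cast h3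
    have h1 := h b hb3
    rw [Nat.floor_natCast, pow_one] at h1
    have h2 : Chebyshev.psi (b : ℝ) = ∑ n ∈ Finset.Icc 1 b, ArithmeticFunction.vonMangoldt n := by
      unfold Chebyshev.psi
      rw [Nat.floor_natCast]
      rfl
    rw [h2]
    calc _ ≤ C * (b : ℝ) / Real.log b := h1
      _ = C * ((b : ℝ) / Real.log b) := by ring
      _ ≤ (C + 13) * ((b : ℝ) / Real.log b) := by nlinarith

/-- `log m = b + O(b / log b)` -/
theorem size : ∃ C : ℝ, ∀ a b m s : ℕ, 2 ≤ b → Sol a b m s →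
    |Real.log m - b| ≤ C * (b / Real.log b) := by
  obtain ⟨C, hC, hpsi⟩ := psi_pnt'
  refine ⟨C + 87, ?_⟩
  intro a b m s hb h
  obtain ⟨D, hD, hlogD⟩ := cofactor h
  have hbR : (2 : ℝ) ≤ b := by exact_mod_cast hb
  have hb0 : (0 : ℝ) < b := by linarith
  have hlog : 0 < Real.log b := Real.log_pos (by linarith)
  have hm0 : (m : ℝ) ≠ 0 := by
    have := h.hm
    exact_mod_cast (by omega : m ≠ 0)
  have hD0 : D ≠ 0 := by
    intro h0
    rw [h0, Nat.mul_zero] at hD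
    exact Nat.lcmUpto_ne_zero b hD.symm
  have hD0' : (D : ℝ) ≠ 0 := by exact_mod_cast hD0
  have h1 : Real.log m + Real.log D = Chebyshev.psi b := by
    rw [Chebyshev.psi_eq_log_lcmUpto, ← hD]
    push_cast
    rw [Real.log_mul hm0 hD0']
  have hlD0 : 0 ≤ Real.log D := Real.log_nonneg (by exact_mod_cast Nat.pos_of_ne_zero hD0)
  have h2 := hpsi b hb
  have h3 : (b : ℝ) ^ (2 / 3 : ℝ) ≤ 3 * (b / Real.log b) := by
    have e1 := Real.log_le_rpow_div hb0.le (by norm_num : (0 : ℝ) < 1 / 3)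
    have e2 : (b : ℝ) = (b : ℝ) ^ (2 / 3 : ℝ) * (b : ℝ) ^ (1 / 3 : ℝ) := by
      rw [← Real.rpow_add hb0]
      norm_num
    have e3 : 0 ≤ (b : ℝ) ^ (2 / 3 : ℝ) := Real.rpow_nonneg hb0.le _
    rw [← mul_div_assoc, le_div_iff₀ hlog]
    calc (b : ℝ) ^ (2 / 3 : ℝ) * Real.log b ≤ (b : ℝ) ^ (2 / 3 : ℝ) * ((b : ℝ) ^ (1 / 3 : ℝ) / (1 / 3)) :=
          mul_le_mul_of_nonneg_left e1 e3
      _ = 3 * ((b : ℝ) ^ (2 / 3 : ℝ) * (b : ℝ) ^ (1 / 3 : ℝ)) := by ring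
      _ = 3 * b := by rw [← e2]
  rw [abs_le] at h2 ⊢
  constructor <;> linarith [h2.1, h2.2]

end Pool.Agent.UIM
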