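import Pool.Agent.P30.UnitIntervalC
import Pool.Agent.Lib.ANT.PNT

/-!
The size of `m` in a solution of `hs a b + 1/m = s`: `log m = b + O(b / log b)`.
-/

set_option autoImplicit false

open Finset

namespace Pool.Agent.UIM

open Pool.Agent.P30.UnitInterval

lemma dvd_lcmUpto {n k : ℕ} (h1 : 1 ≤ n) (h2 : n ≤ k) : n ∣ Nat.lcmUpto k := by
  unfold Nat.lcmUpto
  exact Finset.dvd_lcm (f := id) (Finset.mem_Icc.mpr ⟨h1, h2⟩)

lemma lcm_mul_hs {u w : ℕ} : ∃ z : ℕ, (Nat.lcmUpto w : ℚ) * hs u w = z := by
  unfold hs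
  rw [Finset.mul_sum]
  have h1 : ∀ n ∈ Finset.Ioc u w, (Nat.lcmUpto w : ℚ) * (1 / (n : ℚ)) = ((Nat.lcmUpto w / n : ℕ) : ℚ) := by
    intro n hn
    have hn' := hn
    rw [Finset.mem_Ioc] at hn'
    rw [Nat.cast_div (dvd_lcmUpto (by omega) hn'.2) (by exact_mod_cast (by omega : n ≠ 0))]
    ring
  rw [Finset.sum_congr rfl h1]
  exact ⟨∑ n ∈ Finset.Ioc u w, (Nat.lcmUpto w / n : ℕ), by push_cast; rfl⟩

/-- `m` divides the least common multiple of `1, …, b` -/
lemma m_dvd {a b m s : ℕ} (h : Sol a b m s) : m ∣ Nat.lcmUpto b := by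
  obtain ⟨z, hz⟩ := lcm_mul_hs (u := a) (w := b)
  have hm : (m : ℚ) ≠ 0 := by
    have := h.hm
    exact_mod_cast (by omega : m ≠ 0)
  have h1 : (Nat.lcmUpto b : ℚ) = m * ((Nat.lcmUpto b : ℚ) * s - z) := by
    rw [← hz, ← h.eq]
    field_simp
    ring
  have h2 : ((Nat.lcmUpto b : ℕ) : ℤ) = (m : ℤ) * ((Nat.lcmUpto b : ℤ) * s - z) := by
    exact_mod_cast h1
  have h3 : (m : ℤ) ∣ (Nat.lcmUpto b : ℤ) := ⟨_, h2⟩
  exact_mod_cast h3


lemma lcmT_mul_hs {T u w : ℕ} (hw : w ≤ T) : (Nat.lcmUpto T : ℚ) * hs u w =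
    ((∑ j ∈ Finset.Icc (u + 1) w, Nat.lcmUpto T / j : ℕ) : ℚ) := by
  have h0 : Finset.Icc (u + 1) w = Finset.Ioc u w := by
    ext n
    rw [Finset.mem_Icc, Finset.mem_Ioc]
    omega
  rw [h0]
  unfold hs
  rw [Finset.mul_sum, Nat.cast_sum]
  refine Finset.sum_congr rfl ?_
  intro n hn
  rw [Finset.mem_Ioc] at hn
  rw [Nat.cast_div (dvd_lcmUpto (by omega) (by omega)) (by exact_mod_cast (by omega : n ≠ 0))]
  ring

lemma win {a b l : ℕ} (h13 : 13 * a ≤ 5 * b) (hlpos : 0 < l) (h1 : l ≤ b) : a / l < b / l := by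
  have hJ1 : 1 ≤ b / l := Nat.div_pos h1 hlpos
  by_contra hcon
  push Not at hcon
  have e1 : b < l * (b / l) + l := by
    have := Nat.lt_mul_div_succ b hlpos
    rw [Nat.mul_add, Nat.mul_one] at this
    exact this
  have e2 : l * (a / l) ≤ a := Nat.mul_div_le a l
  have e3 : l * (b / l) ≤ l * (a / l) := Nat.mul_le_mul_left l hcon
  have e4 : b < a + l := by omega
  have e5 : a < l := by omega
  have e6 : a / l = 0 := Nat.div_eq_of_lt e5
  omega

lemma window_pos {a b l T : ℕ} (h13 : 13 * a ≤ 5 * b) (hlpos : 0 < l) (h1 : l ≤ b)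
    (hT : b / l ≤ T) : 0 < ∑ j ∈ Finset.Icc (a / l + 1) (b / l), Nat.lcmUpto T / j := by
  have hw := win h13 hlpos h1
  generalize a / l = u at hw ⊢
  generalize b / l = w at hw hT ⊢
  apply Finset.sum_pos
  · intro j hj
    rw [Finset.mem_Icc] at hj
    have := dvd_lcmUpto (n := j) (k := T) (by omega) (by omega)
    exact Nat.div_pos (Nat.le_of_dvd (Nat.lcmUpto_pos T) this) (by omega)
  · exact ⟨w, by rw [Finset.mem_Icc]; omega⟩

/-- a prime `T < l ≤ b` with `b / l ≤ T` divides `m`, unless it divides the numerator of its window -/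
lemma prime_dvd_gen {a b m s : ℕ} (h : Sol a b m s) (hb : 149 ≤ b) {l T : ℕ} (hl : l.Prime)
    (h1 : l ≤ b) (hTl : T < l) (hT : b / l ≤ T)
    (hN : ¬ l ∣ ∑ j ∈ Finset.Icc (a / l + 1) (b / l), Nat.lcmUpto T / j) : l ∣ m := by
  have : Fact l.Prime := ⟨hl⟩
  have h13 := thirteen h hb
  have hlpos : 0 < l := hl.pos
  by_contra hndvd
  have hab := h.hab
  have hwin : a / l < b / l := win h13 hlpos h1
  have hnm : padicNorm l ((1 : ℚ) / m) = 1 := by
    rw [padicNorm.div, padicNorm.one, (padicNorm.nat_eq_one_iff (p := l) m).mpr hndvd]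
    norm_num
  have hnS : padicNorm l (hs a b) ≤ 1 := by
    have h3 : hs a b = (s : ℚ) - 1 / m := by
      have := h.eq
      linarith
    rw [h3]
    refine le_trans padicNorm.sub ?_
    rw [hnm]
    exact max_le (padicNorm.of_nat (p := l) s) le_rfl
  have hval : ∀ n, n ≠ 0 → ¬ l ∣ n → padicNorm l ((1 : ℚ) / n) = 1 := by
    intro n hn hnd
    rw [padicNorm.div, padicNorm.one, (padicNorm.nat_eq_one_iff (p := l) n).mpr hnd]
    norm_num
  have hl0 : (0 : ℚ) < l := by exact_mod_cast hlpos
  have hl1 : (1 : ℚ) < l := by exact_mod_cast hl.one_lt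
  set M := (Finset.Ioc a b).filter (fun n => l ∣ n) with hM
  have hsplit : hs a b = ∑ n ∈ M, (1 : ℚ) / n +
      ∑ n ∈ (Finset.Ioc a b).filter (fun n => ¬ l ∣ n), (1 : ℚ) / n := by
    unfold hs
    rw [hM, Finset.sum_filter_add_sum_filter_not]
  have hrest : padicNorm l (∑ n ∈ (Finset.Ioc a b).filter (fun n => ¬ l ∣ n), (1 : ℚ) / n) ≤ 1 := by
    apply padicNorm.sum_le'
    · intro n hn
      rw [Finset.mem_filter, Finset.mem_Ioc] at hn
      rw [hval n (by omega) hn.2]
    · norm_num
  have hMimg : M = (Finset.Ioc (a / l) (b / l)).image (fun j => l * j) := by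
    ext n
    rw [hM, Finset.mem_filter, Finset.mem_Ioc, Finset.mem_image]
    constructor
    · rintro ⟨⟨k1, k2⟩, c, rfl⟩
      refine ⟨c, ?_, rfl⟩
      rw [Finset.mem_Ioc]
      constructor
      · rw [Nat.div_lt_iff_lt_mul hlpos, mul_comm]
        exact k1
      · rw [Nat.le_div_iff_mul_le hlpos, mul_comm]
        exact k2
    · rintro ⟨c, hc, rfl⟩
      rw [Finset.mem_Ioc] at hc
      refine ⟨⟨?_, ?_⟩, Dvd.intro c rfl⟩
      · have := hc.1
        rw [Nat.div_lt_iff_lt_mul hlpos, mul_comm] at this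
        exact this
      · have := hc.2
        rw [Nat.le_div_iff_mul_le hlpos, mul_comm] at this
        exact this
  have hMsum : ∑ n ∈ M, (1 : ℚ) / n = hs (a / l) (b / l) / l := by
    rw [hMimg, Finset.sum_image]
    · unfold hs
      rw [Finset.sum_div]
      apply Finset.sum_congr rfl
      intro j hj
      push_cast
      rw [div_div, mul_comm]
    · intro x _ y _ hxy
      exact Nat.eq_of_mul_eq_mul_left hlpos hxy
  -- the numerator
  have hz := lcmT_mul_hs (T := T) (u := a / l) (w := b / l) hT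
  have hDn : padicNorm l ((Nat.lcmUpto T : ℕ) : ℚ) = 1 := by
    rw [padicNorm.nat_eq_one_iff]
    intro hd
    have h5 : l ∈ Nat.primeFactors (Nat.lcmUpto T) :=
      Nat.mem_primeFactors.mpr ⟨hl, hd, Nat.lcmUpto_ne_zero T⟩
    rw [Nat.primeFactors_lcmUpto, Nat.mem_primesLE] at h5
    omega
  have hhn : padicNorm l (hs (a / l) (b / l)) = 1 := by
    have e1 := congrArg (padicNorm l) hz
    rw [padicNorm.mul, hDn, (padicNorm.nat_eq_one_iff (p := l) _).mpr hN, one_mul] at e1
    exact e1
  have hMn : padicNorm l (∑ n ∈ M, (1 : ℚ) / n) = l := by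
    rw [hMsum, padicNorm.div, hhn, padicNorm.padicNorm_p_of_prime]
    simp
  have hfin : padicNorm l (hs a b) = l := by
    rw [hsplit, padicNorm.add_eq_max_of_ne]
    · rw [hMn]
      exact max_eq_left (le_trans hrest hl1.le)
    · rw [hMn]
      exact (lt_of_le_of_lt hrest hl1).ne'
  rw [hfin] at hnS
  linarith

/-- the primes which do not divide `m` and are larger than `b / (T+1)` -/
def Exc (b m T : ℕ) : Finset ℕ := (Nat.primesLE b).filter (fun p => b < (T + 1) * p ∧ ¬ p ∣ m)

/-- the logarithm of a cofactor, split at `b / (T+1)` -/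
lemma log_cofactor {b m D T : ℕ} (hb : 1 ≤ b) (hD : m * D = Nat.lcmUpto b) :
    Real.log D ≤ ∑ p ∈ Exc b m T, Real.log p + Chebyshev.theta ((b / (T + 1) : ℕ) : ℝ)
      + √b * Real.log b := by
  classical
  have hDm : D ≠ 0 := by
    intro h0
    rw [h0, Nat.mul_zero] at hD
    exact Nat.lcmUpto_ne_zero b hD.symm
  have hm0 : m ≠ 0 := by
    intro h0
    rw [h0, Nat.zero_mul] at hD
    exact Nat.lcmUpto_ne_zero b hD.symm
  have hDdvd : D ∣ Nat.lcmUpto b := ⟨m, by rw [← hD, Nat.mul_comm]⟩
  have hfac : ∀ p : ℕ, p.Prime → m.factorization p + D.factorization p = Nat.log p b := by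
    intro p hp
    rw [← Nat.factorization_lcmUpto b hp, ← hD, Nat.factorization_mul hm0 hDm]
    rfl
  have hsupp : D.primeFactors ⊆ Nat.primesLE b := by
    rw [← Nat.primeFactors_lcmUpto]
    exact Nat.primeFactors_mono hDdvd (Nat.lcmUpto_ne_zero b)
  have hlog : Real.log D = ∑ p ∈ Nat.primesLE b, (D.factorization p : ℝ) * Real.log p := by
    have h1 : (D : ℝ) = ∏ p ∈ Nat.primesLE b, (p : ℝ) ^ (D.factorization p) := by
      have h2 : D = ∏ p ∈ Nat.primesLE b, p ^ (D.factorization p) := by
        have h3 : ∏ p ∈ D.primeFactors, p ^ (D.factorization p) = ∏ p ∈ Nat.primesLE b, p ^ (D.factorization p) := by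
          apply Finset.prod_subset hsupp
          intro p _ hp
          have : D.factorization p = 0 := by
            rw [← Finsupp.notMem_support_iff, Nat.support_factorization]
            exact hp
          rw [this, pow_zero]
        rw [← h3]
        exact (Nat.prod_factorization_pow_eq_self hDm).symm
      calc (D : ℝ) = ((∏ p ∈ Nat.primesLE b, p ^ (D.factorization p) : ℕ) : ℝ) := by rw [← h2]
        _ = _ := by push_cast; rfl
    rw [h1, Real.log_prod]
    · apply Finset.sum_congr rfl
      intro p _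
      rw [Real.log_pow]
    · intro p hp
      have := (Nat.prime_of_mem_primesLE hp).pos
      positivity
  rw [hlog]
  -- three parts
  have hterm : ∀ p ∈ Nat.primesLE b, (D.factorization p : ℝ) * Real.log p ≤
      (if (b < (T + 1) * p ∧ ¬ p ∣ m) then Real.log p else 0) +
      ((if p ≤ b / (T + 1) then Real.log p else 0) + (if p ≤ Nat.sqrt b then Real.log b else 0)) := by
    intro p hp
    have hpp := Nat.prime_of_mem_primesLE hp
    have hpb := (Nat.mem_primesLE.mp hp).1
    have hlp : 0 ≤ Real.log p := Real.log_nonneg (by exact_mod_cast hpp.one_le)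
    have hlb : 0 ≤ Real.log b := Real.log_nonneg (by exact_mod_cast hb)
    have hf := hfac p hpp
    by_cases hs : p ≤ Nat.sqrt b
    · -- small primes
      have h2 : (D.factorization p : ℝ) * Real.log p ≤ Real.log b := by
        have h3 : D.factorization p ≤ Nat.log p b := by omega
        have h4 : p ^ (D.factorization p) ≤ b :=
          le_trans (Nat.pow_le_pow_right hpp.pos h3) (Nat.pow_log_le_self p (by omega))
        rw [← Real.log_pow]
        apply Real.log_le_log
        · have := hpp.pos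
          positivity
        · exact_mod_cast h4
      have h3 : 0 ≤ (if (b < (T + 1) * p ∧ ¬ p ∣ m) then Real.log p else 0) := by
        split_ifs
        · exact hlp
        · exact le_rfl
      have h4 : 0 ≤ (if p ≤ b / (T + 1) then Real.log p else 0) := by
        split_ifs
        · exact hlp
        · exact le_rfl
      rw [if_pos hs]
      linarith
    · have hsq : b < p ^ 2 := by
        have : Nat.sqrt b < p := by omega
        exact Nat.sqrt_lt'.mp this
      have hlog1 : Nat.log p b ≤ 1 := by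
        have : Nat.log p b < 2 := Nat.log_lt_of_lt_pow (by omega) hsq
        omega
      rw [if_neg hs]
      by_cases hk : p ≤ b / (T + 1)
      · rw [if_pos hk]
        have h3 : 0 ≤ (if (b < (T + 1) * p ∧ ¬ p ∣ m) then Real.log p else 0) := by
          split_ifs
          · exact hlp
          · exact le_rfl
        have h4 : (D.factorization p : ℝ) ≤ 1 := by
          have : D.factorization p ≤ 1 := by omega
          exact_mod_cast this
        nlinarith
      · rw [if_neg hk]
        have hk2 : b < (T + 1) * p := by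
          have h5 : b / (T + 1) < p := by omega
          have := (Nat.div_lt_iff_lt_mul (by omega : 0 < T + 1)).mp h5
          rw [Nat.mul_comm]
          exact this
        by_cases hpm : p ∣ m
        · have h6 : 1 ≤ m.factorization p := (hpp.dvd_iff_one_le_factorization hm0).mp hpm
          have h7 : D.factorization p = 0 := by omega
          rw [h7, if_neg (fun hc => hc.2 hpm)]
          simp
        · rw [if_pos ⟨hk2, hpm⟩]
          have h4 : (D.factorization p : ℝ) ≤ 1 := by
            have : D.factorization p ≤ 1 := by omega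
            exact_mod_cast this
          nlinarith
  refine le_trans (Finset.sum_le_sum hterm) ?_
  rw [Finset.sum_add_distrib, Finset.sum_add_distrib]
  have p1 : ∑ p ∈ Nat.primesLE b, (if (b < (T + 1) * p ∧ ¬ p ∣ m) then Real.log p else 0) =
      ∑ p ∈ Exc b m T, Real.log p := by
    unfold Exc
    rw [Finset.sum_filter]
  have p2 : ∑ p ∈ Nat.primesLE b, (if p ≤ b / (T + 1) then Real.log p else 0) ≤
      Chebyshev.theta ((b / (T + 1) : ℕ) : ℝ) := by
    rw [Chebyshev.theta_eq_sum_primesLE_log, ← Finset.sum_filter]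
    apply Finset.sum_le_sum_of_subset_of_nonneg
    · intro p hp
      rw [Finset.mem_filter, Nat.mem_primesLE] at hp
      rw [Nat.mem_primesLE]
      exact ⟨hp.2, hp.1.2⟩
    · intro p hp _
      rw [Nat.mem_primesLE] at hp
      exact Real.log_nonneg (by exact_mod_cast hp.2.one_le)
  have p3 : ∑ p ∈ Nat.primesLE b, (if p ≤ Nat.sqrt b then Real.log b else 0) ≤ √b * Real.log b := by
    rw [← Finset.sum_filter, Finset.sum_const, nsmul_eq_mul]
    apply mul_le_mul_of_nonneg_right
    · have h5 : ((Nat.primesLE b).filter (fun p => p ≤ Nat.sqrt b)).card ≤ Nat.sqrt b := by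
        calc _ ≤ (Finset.Icc 1 (Nat.sqrt b)).card := by
              apply Finset.card_le_card
              intro p hp
              rw [Finset.mem_filter, Nat.mem_primesLE] at hp
              rw [Finset.mem_Icc]
              exact ⟨hp.1.2.one_le, hp.2⟩
          _ = Nat.sqrt b := by simp
      calc (((Nat.primesLE b).filter (fun p => p ≤ Nat.sqrt b)).card : ℝ) ≤ (Nat.sqrt b : ℝ) := by
            exact_mod_cast h5
        _ ≤ √b := Real.nat_sqrt_le_real_sqrt
    · exact Real.log_nonneg (by exact_mod_cast hb)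
  linarith

end Pool.Agent.UIM
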